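import Pool.Agent.LCSV.Main
import Pool.Agent.LCSV.Anti
import Pool.Agent.LCSV.ELrep
import Pool.Agent.LCSA.Lower
import Pool.Agent.LCSA.DensB
import Pool.Agent.LCSA.DensC
import Pool.Agent.LCSA.Tight

/-!
# MP_40727b_pr: the limit laws of the longest common subsequence have densities between Gaussian
functions

For all alphabets with sufficiently many letters: every sequence of integers tending to infinity has
a subsequence along which `(L_n - E L_n) / √n` converges in distribution to a law with a density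
between two Gaussian functions. If `(L_n - a_n) / b_n` converges in distribution to a nondegenerate
law, along any sequence of integers, then `b_n` is of exact order `√n`, `a_n = E L_n + O(√n)`, and
the limit law has such a density.
-/

set_option autoImplicit false

namespace Pool.Agent.Results.MP_40727b_pr.LimitLaw

open Finset Filter Topology MeasureTheory

/-- words of `n` letters over an alphabet with `k` letters -/
abbrev Word (k n : ℕ) : Type := Fin n → Fin k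

/-- `X` and `Y` have a common subsequence of length `m` -/
def HasCommon {k n : ℕ} (X Y : Word k n) (m : ℕ) : Prop :=
  ∃ i j : Fin m → Fin n, StrictMono i ∧ StrictMono j ∧ ∀ r, X (i r) = Y (j r)

/-- the length of a longest common subsequence of `X` and `Y` -/
noncomputable def L {k n : ℕ} (X Y : Word k n) : ℕ := sSup {m : ℕ | HasCommon X Y m}

/-- the expectation of `F(X, Y)` for two independent uniform words `X`, `Y` of `n` letters -/
noncomputable def expect (k n : ℕ) (F : Word k n → Word k n → ℝ) : ℝ :=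
  (∑ X : Word k n, ∑ Y : Word k n, F X Y) / ((k : ℝ) ^ n * (k : ℝ) ^ n)

/-- the expectation of `L_n` -/
noncomputable def mean (k n : ℕ) : ℝ := expect k n (fun X Y => (L X Y : ℝ))

/-- `(L_n - a j) / b j`, `n = N j`, converges in distribution to `μ` as `j → ∞` -/
def ConvergesTo (k : ℕ) (N : ℕ → ℕ) (a b : ℕ → ℝ) (μ : Measure ℝ) : Prop :=
  ∀ f : ℝ → ℝ, Continuous f → (∃ B, ∀ x, |f x| ≤ B) →
    Tendsto (fun j => expect k (N j) (fun X Y => f (((L X Y : ℝ) - a j) / b j))) atTop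
      (𝓝 (∫ x, f x ∂μ))

/-- `μ` has a density `f` with `c exp(- C x²) ≤ f(x) ≤ C exp(- c x²)` for all real `x` -/
def GaussianDensity (c C : ℝ) (μ : Measure ℝ) : Prop :=
  ∃ f : ℝ → ℝ, Measurable f ∧
    (∀ x, c * Real.exp (-(C * x ^ 2)) ≤ f x ∧ f x ≤ C * Real.exp (-(c * x ^ 2))) ∧
    μ = volume.withDensity (fun x => ENNReal.ofReal (f x))

theorem L_eq {k n : ℕ} (X Y : Word k n) : LCSV.lcs (List.ofFn X) (List.ofFn Y) = L X Y :=
  LCSV.lcs_ofFn X Y

theorem expect_eq (k n : ℕ) (F : List (Fin k) → List (Fin k) → ℝ) :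
    LCSV.EL (LCSV.un k) n (fun X => LCSV.EL (LCSV.un k) n (fun Y => F X Y)) =
      expect k n (fun X Y => F (List.ofFn X) (List.ofFn Y)) := by
  rw [LCSV.EL_un]
  unfold expect
  rw [show (fun X Y => F (List.ofFn X) (List.ofFn Y)) = (fun X : Word k n => fun Y : Word k n =>
    F (List.ofFn X) (List.ofFn Y)) from rfl]
  simp only [LCSV.EL_un]
  rw [← Finset.mul_sum, one_div, inv_pow, div_eq_inv_mul, mul_inv, mul_assoc]

theorem mean_eq (k n : ℕ) : LCSA.mn k n = mean k n := by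
  unfold LCSA.mn
  rw [expect_eq k n (fun X' Y' => (LCSV.lcs X' Y' : ℝ))]
  simp only [L_eq]
  rfl

/-- the weights of the pairs of words -/
noncomputable def wgt (k n : ℕ) : Word k n × Word k n → ℝ := fun _ => 1 / ((k : ℝ) ^ n * (k : ℝ) ^ n)

theorem av_eq (k n : ℕ) (F : Word k n → Word k n → ℝ) :
    LCSV.av (wgt k n) (fun ω => F ω.1 ω.2) = expect k n F := by
  unfold LCSV.av expect wgt
  rw [← Finset.mul_sum, Fintype.sum_prod_type, one_div, div_eq_inv_mul]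

theorem wgt_isP {k : ℕ} (hk : 0 < k) (n : ℕ) : LCSV.IsP (wgt k n) := by
  refine ⟨fun x => by unfold wgt; positivity, ?_⟩
  unfold wgt
  have hk' : (0 : ℝ) < k := by exact_mod_cast hk
  rw [Finset.sum_const, Finset.card_univ, Fintype.card_prod, Fintype.card_fun, Fintype.card_fin,
    Fintype.card_fin, nsmul_eq_mul]
  push_cast
  have : ((k : ℝ) ^ n * (k : ℝ) ^ n) ≠ 0 := by positivity
  field_simp

theorem exp_bound {k : ℕ} (hk : 0 < k) (n : ℕ) (t : ℝ) :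
    LCSV.av (wgt k n) (fun ω => Real.exp (t * ((L ω.1 ω.2 : ℝ) - mean k n))) ≤
      Real.exp (1 * t ^ 2 * n) := by
  have h := LCSV.mcd2 (LCSV.un_isP hk) (LCSV.un_isP hk) n n (fun X Y => (LCSV.lcs X Y : ℝ)) 1
    zero_le_one (fun l1 l2 x x' y _ _ => LCSV.lcs_change l1 l2 y x x')
    (fun x l1 l2 y y' _ _ => LCSV.lcs_change_right x l1 l2 y y') t
  rw [expect_eq k n (fun X' Y' => (LCSV.lcs X' Y' : ℝ)),
    expect_eq k n (fun X Y => Real.exp (t * ((LCSV.lcs X Y : ℝ) -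
      expect k n (fun X Y => (LCSV.lcs (List.ofFn X) (List.ofFn Y) : ℝ)))))] at h
  simp only [L_eq] at h
  have e2 : t ^ 2 * 1 ^ 2 * ((n : ℝ) + n) / 2 = 1 * t ^ 2 * n := by ring
  rw [e2] at h
  rw [av_eq k n (fun X Y => Real.exp (t * ((L X Y : ℝ) - mean k n)))]
  exact h

/-- the local estimates in terms of the weights -/
theorem local_av {k : ℕ} (c C : ℝ) (n : ℕ) (q : ℤ)
    (h : LCSV.EL (LCSV.un k) n (fun X => LCSV.EL (LCSV.un k) n
        (fun Y => LCSV.ind ((LCSV.lcs X Y : ℤ) = q))) ≤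
      C / √(n : ℝ) * Real.exp (-(c * ((q : ℝ) - LCSA.mn k n) ^ 2 / n)) ∧
    (|(q : ℝ) - LCSA.mn k n| ≤ c * n →
      c / √(n : ℝ) * Real.exp (-(C * ((q : ℝ) - LCSA.mn k n) ^ 2 / n)) ≤
        LCSV.EL (LCSV.un k) n (fun X => LCSV.EL (LCSV.un k) n
          (fun Y => LCSV.ind ((LCSV.lcs X Y : ℤ) = q))))) :
    LCSV.av (wgt k n) (fun ω => LCSV.ind ((L ω.1 ω.2 : ℤ) = q)) ≤
      C / √(n : ℝ) * Real.exp (-(c * ((q : ℝ) - mean k n) ^ 2 / n)) ∧
    (|(q : ℝ) - mean k n| ≤ c * n →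
      c / √(n : ℝ) * Real.exp (-(C * ((q : ℝ) - mean k n) ^ 2 / n)) ≤
        LCSV.av (wgt k n) (fun ω => LCSV.ind ((L ω.1 ω.2 : ℤ) = q))) := by
  rw [mean_eq, expect_eq k n (fun X Y => LCSV.ind ((LCSV.lcs X Y : ℤ) = q))] at h
  simp only [L_eq] at h
  rw [← av_eq k n (fun X Y => LCSV.ind ((L X Y : ℤ) = q))] at h
  exact h

/-- a limit law has a density between Gaussian functions -/
theorem dens {k : ℕ} (hk : 0 < k) (c C : ℝ) (hc : 0 < c) (hC : 0 < C)
    (hloc : ∀ n : ℕ, 1 ≤ n → ∀ q : ℤ,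
      LCSV.av (wgt k n) (fun ω => LCSV.ind ((L ω.1 ω.2 : ℤ) = q)) ≤
        C / √(n : ℝ) * Real.exp (-(c * ((q : ℝ) - mean k n) ^ 2 / n)) ∧
      (|(q : ℝ) - mean k n| ≤ c * n →
        c / √(n : ℝ) * Real.exp (-(C * ((q : ℝ) - mean k n) ^ 2 / n)) ≤
          LCSV.av (wgt k n) (fun ω => LCSV.ind ((L ω.1 ω.2 : ℤ) = q))))
    (c1 C1 : ℝ) (hc1 : 0 < c1) (hC1 : 0 < C1) :
    ∃ c' C' : ℝ, 0 < c' ∧ 0 < C' ∧ ∀ (N : ℕ → ℕ) (a b : ℕ → ℝ) (μ : Measure ℝ),
      Tendsto N atTop atTop → IsProbabilityMeasure μ → ConvergesTo k N a b μ →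
      (∀ᶠ j : ℕ in atTop, c1 * √(N j : ℝ) ≤ b j) →
      (∀ᶠ j : ℕ in atTop, b j ≤ C1 * √(N j : ℝ) ∧ |a j - mean k (N j)| ≤ C1 * √(N j : ℝ)) →
      GaussianDensity c' C' μ := by
  obtain ⟨c', C', hc', hC', h⟩ := LCSA.density_of
    (C1 * C * Real.exp (c * (2 * c1 ^ 2 + C1 ^ 2))) (c * c1 ^ 2 / 4)
    (c1 * c * Real.exp (-(C * (6 * C1 ^ 2)))) (4 * C * C1 ^ 2) (by positivity) (by positivity)
  refine ⟨c', C', hc', hC', fun N a b μ hN hμ hlim h1 h2 => ?_⟩
  have hT : Tendsto (fun j => (N j : ℝ)) atTop atTop := tendsto_natCast_atTop_atTop.comp hN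
  have hl : ∀ f : ℝ → ℝ, Continuous f → (∃ B, ∀ x, |f x| ≤ B) →
      Tendsto (fun j => LCSV.av (wgt k (N j)) (fun ω => f ((((L ω.1 ω.2 : ℤ) : ℝ) - a j) / b j)))
        atTop (𝓝 (∫ x, f x ∂μ)) := by
    intro f hf hB
    refine (hlim f hf hB).congr fun j => ?_
    simp only [Int.cast_natCast]
    exact (av_eq k (N j) (fun X Y => f (((L X Y : ℝ) - a j) / b j))).symm
  have hone : ∀ j, 1 ≤ (N j : ℝ) → 1 ≤ N j := fun j hj => by exact_mod_cast hj
  apply h μ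
  · intro u v x hu hv huv
    refine (measureReal_mono Set.Ioc_subset_Icc_self).trans ?_
    exact LCSA.dens_upper (fun j => wgt k (N j)) (fun j => wgt_isP hk (N j)) (fun j => (N j : ℝ)) hT
      (fun j ω => (L ω.1 ω.2 : ℤ)) (fun j => mean k (N j)) c C hc hC
      (fun j hj q => (hloc (N j) (hone j hj) q).1) a b μ hl c1 C1 hc1 hC1 h1 h2 u v x hu hv huv
  · intro u v x hu hv huv
    exact LCSA.dens_lower (fun j => wgt k (N j)) (fun j => wgt_isP hk (N j)) (fun j => (N j : ℝ)) hT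
      (fun j ω => (L ω.1 ω.2 : ℤ)) (fun j => mean k (N j)) c C hc hC
      (fun j hj q => (hloc (N j) (hone j hj) q).2) a b μ hl c1 C1 hc1 hC1 h1 h2 u v x hu hv huv

/-- **The limit laws have densities between Gaussian functions.** -/
theorem result : ∃ k0 : ℕ, ∀ k ≥ k0,
    (∃ c C : ℝ, 0 < c ∧ 0 < C ∧ ∀ N : ℕ → ℕ, Tendsto N atTop atTop →
      ∃ φ : ℕ → ℕ, StrictMono φ ∧ ∃ μ : Measure ℝ, IsProbabilityMeasure μ ∧
        GaussianDensity c C μ ∧
        ConvergesTo k (fun j => N (φ j)) (fun j => mean k (N (φ j))) (fun j => √(N (φ j) : ℝ)) μ) ∧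
    ∀ (N : ℕ → ℕ) (a b : ℕ → ℝ) (μ : Measure ℝ), Tendsto N atTop atTop → (∀ j, 0 < b j) →
      IsProbabilityMeasure μ → (∀ x, μ ≠ Measure.dirac x) → ConvergesTo k N a b μ →
      (∃ c C : ℝ, 0 < c ∧ ∀ᶠ j : ℕ in atTop, c * √(N j : ℝ) ≤ b j ∧ b j ≤ C * √(N j : ℝ) ∧
        |a j - mean k (N j)| ≤ C * √(N j : ℝ)) ∧
      ∃ c C : ℝ, 0 < c ∧ 0 < C ∧ GaussianDensity c C μ := by
  obtain ⟨k0, h0⟩ := LCSV.main_var
  obtain ⟨k1, h1⟩ := LCSA.local_int
  refine ⟨max k0 k1, fun k hk => ?_⟩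
  obtain ⟨hk1, cl, Cl, hcl, hCl, hloc'⟩ := h1 k (le_trans (le_max_right _ _) hk)
  obtain ⟨c, hc, h⟩ := h0 k (le_trans (le_max_left _ _) hk)
  obtain ⟨c', hc', hanti⟩ := LCSV.anti c hc
  have hloc := fun (n : ℕ) (hn : 1 ≤ n) (q : ℤ) => local_av cl Cl n q (hloc' n hn q)
  constructor
  · obtain ⟨c1, C1, hc1, hC1, hd⟩ := dens hk1 cl Cl hcl hCl hloc 1 1 one_pos one_pos
    refine ⟨c1, C1, hc1, hC1, fun N hN => ?_⟩
    obtain ⟨φ, hφ, μ, hμ, hlim⟩ := LCSA.subseq (fun j => wgt k (N j)) (fun j => wgt_isP hk1 (N j))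
      (fun j => (N j : ℝ)) (fun j => Nat.cast_nonneg _) (fun j ω => (L ω.1 ω.2 : ℝ))
      (fun j => mean k (N j)) 1 one_pos (fun j t => exp_bound hk1 (N j) t)
    have hconv : ConvergesTo k (fun j => N (φ j)) (fun j => mean k (N (φ j)))
        (fun j => √(N (φ j) : ℝ)) μ := by
      intro f hf hB
      refine (hlim f hf hB).congr fun j => ?_
      exact av_eq k (N (φ j)) (fun X Y => f (((L X Y : ℝ) - mean k (N (φ j))) / √(N (φ j) : ℝ)))
    refine ⟨φ, hφ, μ, hμ, ?_, hconv⟩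
    exact hd (fun j => N (φ j)) _ _ μ (hN.comp hφ.tendsto_atTop) hμ hconv
      (Eventually.of_forall fun j => by rw [one_mul])
      (Eventually.of_forall fun j => ⟨by rw [one_mul], by
        rw [sub_self, abs_zero]
        positivity⟩)
  · intro N a b μ hN hb hP hμ hlim
    have hT : Tendsto (fun j => (N j : ℝ)) atTop atTop := tendsto_natCast_atTop_atTop.comp hN
    have hl : ∀ f : ℝ → ℝ, Continuous f → (∃ B, ∀ x, |f x| ≤ B) →
        Tendsto (fun j => LCSV.av (wgt k (N j)) (fun ω => f (((L ω.1 ω.2 : ℝ) - a j) / b j)))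
          atTop (𝓝 (∫ x, f x ∂μ)) := by
      intro f hf hB
      refine (hlim f hf hB).congr fun j => ?_
      exact (av_eq k (N j) (fun X Y => f (((L X Y : ℝ) - a j) / b j))).symm
    have ha : ∀ j : ℕ, 1 ≤ (N j : ℝ) → ∀ x : ℝ,
        c' ≤ LCSV.av (wgt k (N j)) (fun ω => LCSV.ind (c' * √(N j : ℝ) ≤ |(L ω.1 ω.2 : ℝ) - x|)) := by
      intro j hj x
      have hn : 1 ≤ N j := by exact_mod_cast hj
      have h1 := hanti k hk1 (N j) hn (h (N j) hn) x
      rw [expect_eq k (N j) (fun X Y => LCSV.ind (c' * √(N j : ℝ) ≤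
        |(LCSV.lcs X Y : ℝ) - x|))] at h1
      simp only [L_eq] at h1
      rw [← av_eq k (N j) (fun X Y => LCSV.ind (c' * √(N j : ℝ) ≤ |(L X Y : ℝ) - x|))] at h1
      exact h1
    obtain ⟨c1, hc1, e1⟩ := LCSA.lim_lowerS (fun j => wgt k (N j)) (fun j => wgt_isP hk1 (N j))
      (fun j => (N j : ℝ)) hT (fun j ω => (L ω.1 ω.2 : ℝ)) c' hc' ha a b hb μ hl
    obtain ⟨C1, hC1, e2⟩ := LCSA.lim_upperS (fun j => wgt k (N j)) (fun j => wgt_isP hk1 (N j))
      (fun j => (N j : ℝ)) hT (fun j ω => (L ω.1 ω.2 : ℝ)) (fun j => mean k (N j)) 1 one_pos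
      (fun j t => exp_bound hk1 (N j) t) a b hb μ hμ hl
    refine ⟨⟨c1, C1, hc1, ?_⟩, ?_⟩
    · filter_upwards [e1, e2] with j h1 h2
      exact ⟨h1, h2.1, h2.2⟩
    · obtain ⟨c2, C2, hc2, hC2, hd⟩ := dens hk1 cl Cl hcl hCl hloc c1 C1 hc1 hC1
      exact ⟨c2, C2, hc2, hC2, hd N a b μ hN hP hlim e1 e2⟩

end Pool.Agent.Results.MP_40727b_pr.LimitLaw
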